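import Pool.Agent.H221R3.MD.Stmts

/-! Project MD, TaskA: product formula for the transform of the product kernel. -/

set_option autoImplicit false

namespace Pool.Agent.H600R3.MDA

open Finset Pool.Agent.H221R3.MD

variable {q n : ℕ}

/-- phase in one coordinate -/
def th (D : Fin q → Fin q → ℕ) (S : Finset (Fin n → Fin q)) (ξ : (Fin n → Fin q) → ℝ) (k : Fin n)
    (u v : Fin q) : ℝ :=
  ∑ s ∈ S, ξ s * ((D u (s k) : ℝ) - (D v (s k) : ℝ))

theorem th_antisymm (D : Fin q → Fin q → ℕ) (S : Finset (Fin n → Fin q))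
    (ξ : (Fin n → Fin q) → ℝ) (k : Fin n) (u v : Fin q) : th D S ξ k v u = -th D S ξ k u v := by
  unfold th
  rw [← Finset.sum_neg_distrib]
  exact Finset.sum_congr rfl fun s _ => by ring

theorem phase_eq (D : Fin q → Fin q → ℕ) (S : Finset (Fin n → Fin q))
    (ξ : (Fin n → Fin q) → ℝ) (a b : Fin n → Fin q) :
    ∑ s ∈ S, ξ s * (ms D a b s : ℝ) = ∑ k, th D S ξ k (a k) (b k) := by
  unfold th
  rw [Finset.sum_comm]
  refine Finset.sum_congr rfl fun s _ => ?_
  rw [← Finset.mul_sum]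
  congr 1
  unfold ms
  push_cast
  rfl

theorem th_fiber (D : Fin q → Fin q → ℕ) (S : Finset (Fin n → Fin q))
    (ξ : (Fin n → Fin q) → ℝ) (k : Fin n) (u v : Fin q) :
    ∑ w, (∑ s ∈ S.filter (fun s => s k = w), ξ s) * ((D u w : ℝ) - (D v w : ℝ)) =
      th D S ξ k u v := by
  unfold th
  rw [← Finset.sum_fiberwise S (fun s => s k)]
  refine Finset.sum_congr rfl fun w _ => ?_
  rw [Finset.sum_mul]
  refine Finset.sum_congr rfl fun s hs => ?_
  rw [(Finset.mem_filter.1 hs).2]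

/-- the transform of the kernel in one coordinate -/
noncomputable def ph (D : Fin q → Fin q → ℕ) (K : Fin q → Fin q → ℝ) (S : Finset (Fin n → Fin q))
    (ξ : (Fin n → Fin q) → ℝ) (k : Fin n) : ℂ :=
  ∑ u, ∑ v, (K u v : ℂ) * Complex.exp ((th D S ξ k u v : ℝ) * Complex.I)

theorem ph_re (D : Fin q → Fin q → ℕ) (K : Fin q → Fin q → ℝ) (S : Finset (Fin n → Fin q))
    (ξ : (Fin n → Fin q) → ℝ) (k : Fin n) :
    (ph D K S ξ k).re = ∑ u, ∑ v, K u v * Real.cos (th D S ξ k u v) := by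
  unfold ph
  simp only [Complex.re_sum, Complex.re_ofReal_mul, Complex.exp_ofReal_mul_I_re]

theorem ph_im (D : Fin q → Fin q → ℕ) (K : Fin q → Fin q → ℝ) (S : Finset (Fin n → Fin q))
    (ξ : (Fin n → Fin q) → ℝ) (k : Fin n) :
    (ph D K S ξ k).im = ∑ u, ∑ v, K u v * Real.sin (th D S ξ k u v) := by
  unfold ph
  simp only [Complex.im_sum, Complex.im_ofReal_mul, Complex.exp_ofReal_mul_I_im]

theorem ph_im_zero (D : Fin q → Fin q → ℕ) (K : Fin q → Fin q → ℝ) (S : Finset (Fin n → Fin q))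
    (ξ : (Fin n → Fin q) → ℝ) (k : Fin n) (hK : ∀ u v, K u v = K v u) :
    (ph D K S ξ k).im = 0 := by
  rw [ph_im]
  have h : ∑ u, ∑ v, K u v * Real.sin (th D S ξ k u v) =
      -∑ u, ∑ v, K u v * Real.sin (th D S ξ k u v) := by
    conv_lhs => rw [Finset.sum_comm]
    rw [← Finset.sum_neg_distrib]
    refine Finset.sum_congr rfl fun u _ => ?_
    rw [← Finset.sum_neg_distrib]
    refine Finset.sum_congr rfl fun v _ => ?_
    rw [th_antisymm, Real.sin_neg, hK v u]
    ring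
  linarith

theorem ph_re_nonneg (D : Fin q → Fin q → ℕ) (K : Fin q → Fin q → ℝ) (C : ℝ)
    (S : Finset (Fin n → Fin q)) (ξ : (Fin n → Fin q) → ℝ) (k : Fin n) (h : PosK q D K C) :
    0 ≤ (ph D K S ξ k).re := by
  rw [ph_re]
  have h1 := h.2.2.2.2 (fun w => ∑ s ∈ S.filter (fun s => s k = w), ξ s)
  simpa only [th_fiber] using h1

theorem sum_prod (f : Fin n → Fin q → ℂ) :
    ∑ a : Fin n → Fin q, ∏ k, f k (a k) = ∏ k, ∑ u, f k u := by
  rw [Finset.prod_univ_sum, Fintype.piFinset_univ]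

theorem total (D : Fin q → Fin q → ℕ) (K : Fin q → Fin q → ℝ) (S : Finset (Fin n → Fin q))
    (ξ : (Fin n → Fin q) → ℝ) :
    ∑ a : Fin n → Fin q, ∑ b : Fin n → Fin q, ((∏ k, K (a k) (b k) : ℝ) : ℂ) *
      Complex.exp ((∑ s ∈ S, ξ s * (ms D a b s : ℝ) : ℝ) * Complex.I) =
      ∏ k, ph D K S ξ k := by
  unfold ph
  rw [← sum_prod]
  refine Finset.sum_congr rfl fun a _ => ?_
  rw [← sum_prod (fun k v => (K (a k) v : ℂ) * Complex.exp ((th D S ξ k (a k) v : ℝ) * Complex.I))]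
  refine Finset.sum_congr rfl fun b _ => ?_
  rw [phase_eq, Finset.prod_mul_distrib, ← Complex.exp_sum, ← Finset.sum_mul]
  push_cast
  rfl

theorem taskA : TaskA := by
  intro q n D K C h S ξ
  have ht := total D K S ξ
  have hr : ∏ k, ph D K S ξ k = ((∏ k, (ph D K S ξ k).re : ℝ) : ℂ) := by
    push_cast
    refine Finset.prod_congr rfl fun k _ => ?_
    apply Complex.ext
    · simp
    · rw [ph_im_zero D K S ξ k h.2.1]; simp
  rw [hr] at ht
  have hre := congrArg Complex.re ht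
  have him := congrArg Complex.im ht
  simp only [Complex.re_sum, Complex.re_ofReal_mul, Complex.exp_ofReal_mul_I_re,
    Complex.ofReal_re] at hre
  simp only [Complex.im_sum, Complex.im_ofReal_mul, Complex.exp_ofReal_mul_I_im,
    Complex.ofReal_im] at him
  refine ⟨?_, him⟩
  rw [hre]
  exact Finset.prod_nonneg fun k _ => ph_re_nonneg D K C S ξ k h

end Pool.Agent.H600R3.MDA
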